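import Pool.Agent.W275.ND.Stm
import Pool.Agent.H927R2.RD.T15
import Pool.Agent.H637R2.Leo.Split

/-!
An order embeds in the `p`-adic integers for some prime `p`.
-/

set_option autoImplicit false
set_option linter.unusedVariables false

namespace Pool.Agent.W930.ND

open Pool.Agent.W275.ND Pool.Agent.H927R2.RD

/-- there are degree one primes outside a finite set -/
lemma exists_degOne (K : Type) [Field K] [NumberField K] (S : Finset ℕ) :
    ∃ p : ℕ, p ∉ S ∧ DegOne K p := by
  classical
  set N : ℕ := ∏ n ∈ S.filter (fun n => n ≠ 0), n with hN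
  have hN0 : N ≠ 0 := by
    rw [hN, Finset.prod_ne_zero_iff]
    intro n hn
    exact (Finset.mem_filter.1 hn).2
  obtain ⟨q, hq, hqN, ⟨φ⟩⟩ := Pool.Agent.H637R2.Leo.exists_hom K N hN0
  have : Fact q.Prime := ⟨hq⟩
  refine ⟨q, ?_, hq, RingHom.ker φ, ?_⟩
  · intro h
    apply hqN
    rw [hN]
    exact Finset.dvd_prod_of_mem _ (Finset.mem_filter.2 ⟨h, hq.ne_zero⟩)
  · have hs : Function.Surjective φ := by
      intro x
      obtain ⟨n, rfl⟩ := ZMod.intCast_surjective x
      exact ⟨(n : NumberField.RingOfIntegers K), map_intCast φ n⟩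
    have e := RingHom.quotientKerEquivOfSurjective hs
    rw [Ideal.absNorm_apply, Submodule.cardQuot_apply]
    have := Nat.card_congr e.toEquiv
    rw [Nat.card_zmod] at this
    exact this

theorem main : S_spl := by
  intro O J _ _ _ ω
  classical
  have hfree : Module.Free ℤ O := Module.Free.of_basis ω
  have hfin : Module.Finite ℤ O := Module.Finite.of_basis ω
  have hint : Algebra.IsIntegral ℤ O := Algebra.IsIntegral.of_finite ℤ O
  let σ : O →ₐ[ℤ] ℂ := IsAlgClosed.lift
  set s : Finset ℂ := Finset.univ.image (fun j => σ (ω j)) with hs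
  obtain ⟨K, hK, hK', S, h⟩ := exists_padic_embedding s
  obtain ⟨p, hpS, hp⟩ := exists_degOne K S
  have hpp : Fact p.Prime := ⟨hp.1⟩
  obtain ⟨e⟩ := h p hpS hp
  refine ⟨p, hpp, ?_⟩
  have hmem : ∀ x : O, σ x ∈ Subfield.closure (s : Set ℂ) := by
    intro x
    rw [← ω.sum_repr x, map_sum]
    refine sum_mem fun j _ => ?_
    rw [map_zsmul]
    refine zsmul_mem (Subfield.subset_closure ?_) _
    rw [hs]
    simp
  let τ : O →+* Subfield.closure (s : Set ℂ) := (σ : O →+* ℂ).codRestrict _ hmem
  let g : O →+* ℚ_[p] := e.comp τ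
  have hg : ∀ x : O, g x ∈ PadicInt.subring p := by
    intro x
    have h1 : IsIntegral ℤ (g x) := (hint.isIntegral x).map g.toIntAlgHom
    have h2 : IsIntegral ℤ_[p] (g x) := h1.tower_top
    obtain ⟨y, hy⟩ := IsIntegrallyClosed.isIntegral_iff.1 h2
    rw [← hy]
    exact y.2
  exact ⟨g.codRestrict (PadicInt.subring p) hg⟩

end Pool.Agent.W930.ND
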